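import Pool.Agent.Run7.h177.TA.Iface

/-!
# Project TA, piece ADI: dynamics near an attracting fixed point for a nonarchimedean absolute value
-/

set_option autoImplicit false

namespace Run7.h588.TA

open MvPolynomial
open Run7.h177.TA

section bounds

variable {K : Type} [Field K] (v : AbsoluteValue K ℝ) {w : ℕ}

theorem degree_one {α : Type} [Fintype α] (m : α →₀ ℕ) (h : m.degree = 1) :
    ∃ j, m = Finsupp.single j 1 := by
  classical
  rw [Finsupp.degree_eq_sum] at h
  obtain ⟨j, hj⟩ : ∃ j, m j ≠ 0 := by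
    by_contra hcon
    push Not at hcon
    rw [Finset.sum_eq_zero fun i _ => hcon i] at h
    omega
  refine ⟨j, ?_⟩
  rw [← Finset.add_sum_erase _ _ (Finset.mem_univ j)] at h
  have h1 : m j = 1 ∧ ∑ i ∈ Finset.univ.erase j, m i = 0 := by omega
  ext i
  by_cases hij : i = j
  · subst hij
    rw [h1.1, Finsupp.single_eq_same]
  · rw [Finsupp.single_apply, if_neg (Ne.symm hij)]
    exact (Finset.sum_eq_zero_iff.1 h1.2) i (Finset.mem_erase.2 ⟨hij, Finset.mem_univ i⟩)

/-- A polynomial without terms of degree less than `k`. -/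
theorem deg_bound (G : Pl K w) (k : ℕ) (h : ∀ m ∈ G.support, k ≤ m.degree) :
    ∃ C : ℝ, 0 < C ∧ ∀ r : ℝ, 0 ≤ r → r ≤ 1 → ∀ x : Option (Fin w) → K, (∀ j, v (x j) ≤ r) →
      v (eval x G) ≤ C * r ^ k := by
  classical
  refine ⟨∑ m ∈ G.support, v (coeff m G) + 1, ?_, ?_⟩
  · have : 0 ≤ ∑ m ∈ G.support, v (coeff m G) := Finset.sum_nonneg fun m _ => v.nonneg _
    linarith
  intro r hr0 hr1 x hx
  rw [eval_eq']
  have hsum : v (∑ d ∈ G.support, coeff d G * ∏ i, x i ^ d i) ≤
      ∑ d ∈ G.support, v (coeff d G * ∏ i, x i ^ d i) := v.sum_le _ _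
  have h1 : ∑ d ∈ G.support, v (coeff d G * ∏ i, x i ^ d i) ≤
      ∑ d ∈ G.support, v (coeff d G) * r ^ k := by
    refine Finset.sum_le_sum fun d hd => ?_
    rw [map_mul, map_prod]
    refine mul_le_mul_of_nonneg_left ?_ (v.nonneg _)
    calc ∏ i, v (x i ^ d i) ≤ ∏ i, r ^ d i := by
          refine Finset.prod_le_prod (fun i _ => v.nonneg _) fun i _ => ?_
          rw [map_pow]
          exact pow_le_pow_left₀ (v.nonneg _) (hx i) _
      _ = r ^ d.degree := by
          rw [Finset.prod_pow_eq_pow_sum]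
          congr 1
          rw [Finsupp.degree_eq_sum]
      _ ≤ r ^ k := pow_le_pow_of_le_one hr0 hr1 (h d hd)
  rw [← Finset.sum_mul] at h1
  have h2 : 0 ≤ r ^ k := pow_nonneg hr0 k
  nlinarith [hsum, h1, h2]

theorem bound1 (H : Pl K w) :
    ∃ C : ℝ, 0 < C ∧ ∀ r : ℝ, 0 ≤ r → r ≤ 1 → ∀ x : Option (Fin w) → K, (∀ j, v (x j) ≤ r) →
      v (eval x H - constantCoeff H) ≤ C * r := by
  classical
  obtain ⟨C0, hC, h⟩ := deg_bound v (H - C (constantCoeff H)) 1 (by
    intro m hm
    by_contra hlt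
    have h0 : m.degree = 0 := by omega
    have h1 : m = 0 := by
      ext i
      exact (Finsupp.degree_eq_zero_iff m).1 h0 ▸ rfl
    subst h1
    rw [mem_support_iff] at hm
    apply hm
    rw [coeff_sub, coeff_C, if_pos rfl]
    simp [constantCoeff_eq])
  refine ⟨C0, hC, fun r h0 h1 x hx => ?_⟩
  have := h r h0 h1 x hx
  rwa [map_sub, eval_C, pow_one] at this

theorem bound2 (H : Pl K w) :
    ∃ C : ℝ, 0 < C ∧ ∀ r : ℝ, 0 ≤ r → r ≤ 1 → ∀ x : Option (Fin w) → K, (∀ j, v (x j) ≤ r) →
      v (eval x H - constantCoeff H - ∑ j, lc j H * x j) ≤ C * r ^ 2 := by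
  classical
  obtain ⟨C0, hC, h⟩ := deg_bound v (H - C (constantCoeff H) - ∑ j, C (lc j H) * X j) 2 (by
    intro m hm
    by_contra hlt
    rw [mem_support_iff] at hm
    apply hm
    have hcases : m.degree = 0 ∨ m.degree = 1 := by omega
    rcases hcases with h0 | h1
    · have h1 : m = 0 := (Finsupp.degree_eq_zero_iff m).1 h0
      subst h1
      simp only [coeff_sub, coeff_sum, coeff_C_mul, coeff_zero_X, mul_zero, Finset.sum_const_zero,
        sub_zero, coeff_C, if_true]
      simp [constantCoeff_eq]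
    · obtain ⟨j, rfl⟩ : ∃ j, m = Finsupp.single j 1 := by
        exact degree_one m h1
      simp only [coeff_sub, coeff_sum, coeff_C_mul, coeff_C]
      rw [if_neg (by
        intro h2
        have := congrArg (fun f => f j) h2
        simp at this)]
      have : ∀ i : Option (Fin w), lc i H * coeff (Finsupp.single j 1) (X i : Pl K w) =
          if i = j then lc j H else 0 := by
        intro i
        by_cases hij : i = j
        · subst hij; simp [coeff_X]
        · rw [if_neg hij, coeff_X, if_neg, mul_zero]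
          intro h3
          exact hij (by simpa using Finsupp.single_left_injective (one_ne_zero) h3)
      simp only [this]
      rw [Finset.sum_ite_eq' Finset.univ j]
      simp [lc])
  refine ⟨C0, hC, fun r h0 h1 x hx => ?_⟩
  have := h r h0 h1 x hx
  simpa only [map_sub, eval_C, map_sum, map_mul, eval_X] using this

/-- A small root. -/
theorem small_root [IsAlgClosed K] (hv : IsNonarchimedean v) :
    ∀ (n : ℕ) (f : Polynomial K), f.natDegree = n → f.coeff 1 ≠ 0 →
      ∃ θ, f.eval θ = 0 ∧ v θ * v (f.coeff 1) ≤ v (f.coeff 0) := by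
  intro n
  induction n using Nat.strong_induction_on with
  | _ n ih =>
    intro f hf h1
    have hf0 : f ≠ 0 := by
      rintro rfl
      exact h1 (Polynomial.coeff_zero 1)
    have hdeg : 1 ≤ f.natDegree := by
      by_contra hlt
      exact h1 (Polynomial.coeff_eq_zero_of_natDegree_lt (by omega))
    obtain ⟨α, hα⟩ := IsAlgClosed.exists_root f (by
      rw [Polynomial.degree_eq_natDegree hf0]
      exact_mod_cast (by omega : f.natDegree ≠ 0))
    obtain ⟨g, hg⟩ := Polynomial.dvd_iff_isRoot.2 hα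
    have hc0 : f.coeff 0 = - (α * g.coeff 0) := by
      rw [hg, Polynomial.mul_coeff_zero]
      simp
    have hc1 : f.coeff 1 = g.coeff 0 - α * g.coeff 1 := by
      rw [hg, sub_mul, Polynomial.coeff_sub, Polynomial.coeff_C_mul]
      congr 1
      exact Polynomial.coeff_X_mul g 0
    by_cases hle : v (f.coeff 1) ≤ v (g.coeff 0)
    · refine ⟨α, hα, ?_⟩
      rw [hc0, map_neg_eq_map, map_mul]
      exact mul_le_mul_of_nonneg_left hle (v.nonneg _)
    · have h2 : v (f.coeff 1) ≤ max (v (g.coeff 0)) (v (α * g.coeff 1)) := by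
        have := hv (g.coeff 0) (-(α * g.coeff 1))
        rwa [map_neg_eq_map, ← sub_eq_add_neg, ← hc1] at this
      have h3 : v (f.coeff 1) ≤ v α * v (g.coeff 1) := by
        rcases le_max_iff.1 h2 with h4 | h4
        · exact absurd h4 hle
        · rwa [map_mul] at h4
      have hpos : 0 < v (f.coeff 1) := v.pos h1
      have hg1 : g.coeff 1 ≠ 0 := by
        intro h0
        rw [h0, map_zero, mul_zero] at h3
        linarith
      have hg0 : g ≠ 0 := by
        rintro rfl
        exact hg1 (Polynomial.coeff_zero 1)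
      have hgd : g.natDegree < n := by
        have := congrArg Polynomial.natDegree hg
        rw [Polynomial.natDegree_mul (Polynomial.X_sub_C_ne_zero α) hg0,
          Polynomial.natDegree_X_sub_C] at this
        omega
      obtain ⟨θ, hθ, hb⟩ := ih g.natDegree hgd g rfl hg1
      refine ⟨θ, by rw [hg, Polynomial.eval_mul, hθ, mul_zero], ?_⟩
      rw [hc0, map_neg_eq_map, map_mul]
      calc v θ * v (f.coeff 1) ≤ v θ * (v α * v (g.coeff 1)) :=
            mul_le_mul_of_nonneg_left h3 (v.nonneg _)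
        _ = v α * (v θ * v (g.coeff 1)) := by ring
        _ ≤ v α * v (g.coeff 0) := mul_le_mul_of_nonneg_left hb (v.nonneg _)

/-- The values of `H` as a polynomial in `Θ`. -/
noncomputable def uni (H : Pl K w) (u : Fin w → K) : Polynomial K :=
  aeval (fun o : Option (Fin w) => o.elim Polynomial.X fun i => Polynomial.C (u i)) H

theorem uni_eval (H : Pl K w) (u : Fin w → K) (θ : K) :
    (uni H u).eval θ = eval (fun o : Option (Fin w) => o.elim θ u) H := by
  rw [uni, ← Polynomial.coe_evalRingHom, aeval_def, eval₂_comp_left, eval]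
  congr 1
  · ext a
    simp
  · funext o
    cases o <;> simp

theorem uni_coeff_one (H : Pl K w) (u : Fin w → K) :
    (uni H u).coeff 1 = ∑ m ∈ H.support, if m none = 1 then
      coeff m H * ∏ i, u i ^ m (some i) else 0 := by
  rw [uni, aeval_def, eval₂_eq', Polynomial.finsetSum_coeff]
  refine Finset.sum_congr rfl fun m _ => ?_
  rw [Polynomial.algebraMap_eq, Polynomial.coeff_C_mul, Fintype.prod_option]
  simp only [Option.elim]
  have h1 : (∏ i, Polynomial.C (u i) ^ m (some i) : Polynomial K) =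
      Polynomial.C (∏ i, u i ^ m (some i)) := by
    rw [map_prod]
    exact Finset.prod_congr rfl fun i _ => (map_pow _ _ _).symm
  rw [h1, mul_comm (Polynomial.X ^ m none), Polynomial.coeff_C_mul, Polynomial.coeff_X_pow]
  by_cases h : m none = 1
  · rw [if_pos h, if_pos h.symm, mul_one]
  · rw [if_neg h, if_neg (Ne.symm h), mul_zero, mul_zero]

theorem uni_lin (H : Pl K w) :
    ∃ C : ℝ, 0 < C ∧ ∀ r : ℝ, 0 ≤ r → r ≤ 1 → ∀ u : Fin w → K, (∀ j, v (u j) ≤ r) →
      v ((uni H u).coeff 1 - lc none H) ≤ C * r := by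
  classical
  refine ⟨∑ m ∈ H.support, v (coeff m H) + 1, ?_, ?_⟩
  · have : 0 ≤ ∑ m ∈ H.support, v (coeff m H) := Finset.sum_nonneg fun m _ => v.nonneg _
    linarith
  intro r hr0 hr1 u hu
  have h1 : lc none H = ∑ m ∈ H.support, if m = Finsupp.single none 1 then coeff m H else 0 := by
    rw [Finset.sum_ite_eq' H.support]
    split_ifs with h
    · rfl
    · rw [notMem_support_iff] at h
      exact h
  rw [uni_coeff_one, h1, ← Finset.sum_sub_distrib]
  refine (v.sum_le _ _).trans ?_
  have h2 : ∑ m ∈ H.support, v ((if m none = 1 then coeff m H * ∏ i, u i ^ m (some i) else 0) -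
      if m = Finsupp.single none 1 then coeff m H else 0) ≤
      ∑ m ∈ H.support, v (coeff m H) * r := by
    refine Finset.sum_le_sum fun m _ => ?_
    by_cases hm : m = Finsupp.single none 1
    · subst hm
      simp
      exact mul_nonneg (v.nonneg _) hr0
    · rw [if_neg hm, sub_zero]
      by_cases hn : m none = 1
      · rw [if_pos hn, map_mul]
        refine mul_le_mul_of_nonneg_left ?_ (v.nonneg _)
        obtain ⟨i0, hi0⟩ : ∃ i, m (some i) ≠ 0 := by
          by_contra hcon
          push Not at hcon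
          apply hm
          ext o
          cases o with
          | none => rw [hn, Finsupp.single_eq_same]
          | some i => rw [hcon i]; simp
        rw [map_prod, ← Finset.mul_prod_erase _ _ (Finset.mem_univ i0)]
        have h3 : v (u i0 ^ m (some i0)) ≤ r := by
          rw [map_pow]
          calc v (u i0) ^ m (some i0) ≤ r ^ m (some i0) := pow_le_pow_left₀ (v.nonneg _) (hu i0) _
            _ ≤ r ^ 1 := pow_le_pow_of_le_one hr0 hr1 (by omega)
            _ = r := pow_one r
        have h4 : ∏ i ∈ Finset.univ.erase i0, v (u i ^ m (some i)) ≤ 1 := by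
          refine Finset.prod_le_one (fun i _ => v.nonneg _) fun i _ => ?_
          rw [map_pow]
          exact pow_le_one₀ (v.nonneg _) ((hu i).trans hr1)
        have h5 : 0 ≤ ∏ i ∈ Finset.univ.erase i0, v (u i ^ m (some i)) :=
          Finset.prod_nonneg fun i _ => v.nonneg _
        calc v (u i0 ^ m (some i0)) * ∏ i ∈ Finset.univ.erase i0, v (u i ^ m (some i))
            ≤ r * 1 := mul_le_mul h3 h4 h5 hr0
          _ = r := mul_one r
      · rw [if_neg hn, map_zero]
        exact mul_nonneg (v.nonneg _) hr0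
  rw [← Finset.sum_mul] at h2
  nlinarith

theorem eval_hom (e : ℕ) (a : Option (Fin w) → Pl K w) (b H : Pl K w)
    (he : ∀ m ∈ H.support, m.degree ≤ e) (x : Option (Fin w) → K) (hb : eval x b ≠ 0) :
    eval x (hom e a b H) = eval x b ^ e * eval (fun j => eval x (a j) / eval x b) H := by
  classical
  rw [hom, map_sum, eval_eq' (fun j => eval x (a j) / eval x b) H, Finset.mul_sum]
  refine Finset.sum_congr rfl fun m hm => ?_
  rw [map_mul, map_mul, eval_C, map_prod, map_pow]
  have h1 : ∏ i, (eval x (a i) / eval x b) ^ m i =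
      (∏ i, eval x (a i) ^ m i) / eval x b ^ m.degree := by
    rw [Finsupp.degree_eq_sum, ← Finset.prod_pow_eq_pow_sum, ← Finset.prod_div_distrib]
    exact Finset.prod_congr rfl fun i _ => div_pow _ _ _
  have h2 : eval x b ^ e = eval x b ^ (e - m.degree) * eval x b ^ m.degree := by
    rw [← pow_add, Nat.sub_add_cancel (he m hm)]
  have h3 : ∏ i, eval x (a i ^ m i) = ∏ i, eval x (a i) ^ m i :=
    Finset.prod_congr rfl fun i _ => map_pow _ _ _
  rw [h1, h2, h3]
  have h4 : eval x b ^ m.degree ≠ 0 := pow_ne_zero _ hb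
  field_simp

/-- nonarchimedean absolute values -/
theorem na_lt (hv : IsNonarchimedean v) {x y : K} (h : v y < v x) : v (x + y) = v x := by
  apply le_antisymm
  · exact (hv x y).trans (max_le le_rfl h.le)
  · have h1 := hv (x + y) (-y)
    rw [add_neg_cancel_right, map_neg_eq_map] at h1
    rcases le_max_iff.1 h1 with h2 | h2
    · exact h2
    · exact absurd h2 (not_le.2 h)

theorem na_one (hv : IsNonarchimedean v) {x : K} (h : v (x - 1) < 1) : v x = 1 := by
  have h1 : v (1 + (x - 1)) = v 1 := na_lt v hv (by rwa [map_one])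
  rwa [add_sub_cancel, map_one] at h1

/-- the coordinate `Θ` is bounded by the coordinates `U` -/
theorem theta_bound (M : Pl K w) (hM0 : constantCoeff M = 0) (hM1 : lc none M ≠ 0) :
    ∃ C₁ ρ : ℝ, 1 ≤ C₁ ∧ 0 < ρ ∧ ρ ≤ 1 ∧ ∀ x : Option (Fin w) → K, (∀ j, v (x j) ≤ ρ) →
      eval x M = 0 → ∀ r : ℝ, 0 ≤ r → (∀ i, v (x (some i)) ≤ r) → v (x none) ≤ C₁ * r := by
  obtain ⟨C, hC, hb⟩ := bound2 v M
  set μ := v (lc none M) with hμ
  have hμ0 : 0 < μ := v.pos hM1
  set A : ℝ := ∑ i, v (lc (some i) M) with hA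
  have hA0 : 0 ≤ A := Finset.sum_nonneg fun i _ => v.nonneg _
  refine ⟨max 1 (2 * A / μ), min 1 (μ / (2 * C)), le_max_left _ _, ?_, min_le_left _ _, ?_⟩
  · exact lt_min one_pos (by positivity)
  intro x hx hxM r hr hxr
  set t := v (x none) with ht
  by_cases htr : t ≤ r
  · calc t ≤ r := htr
      _ = 1 * r := (one_mul r).symm
      _ ≤ _ := mul_le_mul_of_nonneg_right (le_max_left _ _) hr
  · push Not at htr
    have ht0 : 0 ≤ t := v.nonneg _
    have ht1 : t ≤ 1 := (hx none).trans (min_le_left _ _)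
    have ht2 : t ≤ μ / (2 * C) := (hx none).trans (min_le_right _ _)
    have h1 := hb t ht0 ht1 x (fun j => by
      cases j with
      | none => exact le_rfl
      | some i => exact (hxr i).trans htr.le)
    rw [hxM, hM0, sub_zero, zero_sub, map_neg_eq_map, Fintype.sum_option] at h1
    have h2 : v (∑ i, lc (some i) M * x (some i)) ≤ A * r := by
      refine (v.sum_le _ _).trans ?_
      rw [hA, Finset.sum_mul]
      refine Finset.sum_le_sum fun i _ => ?_
      rw [map_mul]
      exact mul_le_mul_of_nonneg_left (hxr i) (v.nonneg _)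
    have h3 : μ * t ≤ C * t ^ 2 + A * r := by
      have h4 : lc none M * x none = (lc none M * x none + ∑ i, lc (some i) M * x (some i)) +
        -(∑ i, lc (some i) M * x (some i)) := by ring
      have h5 := v.add_le (lc none M * x none + ∑ i, lc (some i) M * x (some i))
        (-(∑ i, lc (some i) M * x (some i)))
      rw [← h4, map_neg_eq_map, map_mul] at h5
      linarith
    have h6 : C * t ≤ μ / 2 := by
      have := mul_le_mul_of_nonneg_left ht2 hC.le
      calc C * t ≤ C * (μ / (2 * C)) := this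
        _ = μ / 2 := by field_simp
    have h7 : C * t ^ 2 ≤ μ / 2 * t := by nlinarith
    have h8 : t ≤ 2 * A / μ * r := by
      rw [div_mul_eq_mul_div, le_div_iff₀ hμ0]
      nlinarith
    exact h8.trans (mul_le_mul_of_nonneg_right (le_max_right _ _) hr)

end bounds

section step

variable {K : Type} [Field K] (v : AbsoluteValue K ℝ) {w n : ℕ} {ι : Type}
  {F : ι → MvPolynomial (Fin (n + 1)) K} {Q : MvPolynomial (Fin (n + 1)) K} {D : Dyn K w n}

/-- the self-map -/
noncomputable def stp (D : Dyn K w n) (x : Option (Fin w) → K) : Option (Fin w) → K :=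
  fun j => eval x (D.a j) / eval x D.b

/-- the linear part of the self-map -/
theorem lin_bound (hG : Good F Q D) :
    ∃ C : ℝ, 0 < C ∧ ∀ r : ℝ, 0 ≤ r → r ≤ 1 → ∀ x : Option (Fin w) → K, (∀ j, v (x j) ≤ r) →
      eval x D.M = 0 → ∀ i, v (eval x (D.a (some i)) - 2 * x (some i)) ≤ C * r ^ 2 := by
  classical
  have hμ : lc none D.M ≠ 0 := hG.M1.ne_zero
  obtain ⟨CM, hCM, hbM⟩ := bound2 v D.M
  choose Ca hCa hba using fun i : Fin w => bound2 v (D.a (some i))
  have hμ0 : 0 < v (lc none D.M) := v.pos hμ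
  have hterm : ∀ i, 0 ≤ Ca i + v (lc none (D.a (some i))) / v (lc none D.M) * CM := fun i => by
    have := hCa i
    positivity
  refine ⟨∑ i, (Ca i + v (lc none (D.a (some i))) / v (lc none D.M) * CM) + 1, ?_, ?_⟩
  · have : 0 ≤ ∑ i, (Ca i + v (lc none (D.a (some i))) / v (lc none D.M) * CM) :=
      Finset.sum_nonneg fun i _ => hterm i
    linarith
  intro r hr0 hr1 x hx hxM i
  have h1 := hbM r hr0 hr1 x hx
  have h2 := hba i r hr0 hr1 x hx
  rw [hxM, hG.M0, sub_zero, zero_sub, map_neg_eq_map] at h1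
  rw [hG.a0, sub_zero] at h2
  have key : lc none D.M * (eval x (D.a (some i)) - 2 * x (some i)) =
      lc none D.M * (eval x (D.a (some i)) - ∑ j, lc j (D.a (some i)) * x j) +
        lc none (D.a (some i)) * ∑ j, lc j D.M * x j := by
    rw [Fintype.sum_option, Fintype.sum_option, mul_sub, mul_sub, mul_add, mul_add]
    have h3 : lc none D.M * ∑ k, lc (some k) (D.a (some i)) * x (some k) -
        lc none (D.a (some i)) * ∑ k, lc (some k) D.M * x (some k) =
        lc none D.M * (2 * x (some i)) := by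
      rw [Finset.mul_sum, Finset.mul_sum, ← Finset.sum_sub_distrib]
      have h4 : ∀ k : Fin w, lc none D.M * (lc (some k) (D.a (some i)) * x (some k)) -
          lc none (D.a (some i)) * (lc (some k) D.M * x (some k)) =
          if i = k then lc none D.M * (2 * x (some i)) else 0 := by
        intro k
        have h5 := hG.lin i k
        have h6 : lc none D.M * (lc (some k) (D.a (some i)) * x (some k)) -
          lc none (D.a (some i)) * (lc (some k) D.M * x (some k)) =
          (lc (some k) (D.a (some i)) * lc none D.M -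
            lc none (D.a (some i)) * lc (some k) D.M) * x (some k) := by ring
        rw [h6, h5]
        split_ifs with h
        · subst h; ring
        · ring
      rw [Finset.sum_congr rfl fun k _ => h4 k, Finset.sum_ite_eq, if_pos (Finset.mem_univ i)]
    linear_combination h3
  have h7 : v (lc none D.M) * v (eval x (D.a (some i)) - 2 * x (some i)) ≤
      v (lc none D.M) * (Ca i * r ^ 2) + v (lc none (D.a (some i))) * (CM * r ^ 2) := by
    rw [← map_mul, key]
    refine (v.add_le _ _).trans ?_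
    rw [map_mul, map_mul]
    exact add_le_add (mul_le_mul_of_nonneg_left h2 (v.nonneg _))
      (mul_le_mul_of_nonneg_left h1 (v.nonneg _))
  have h8 : v (eval x (D.a (some i)) - 2 * x (some i)) ≤
      (Ca i + v (lc none (D.a (some i))) / v (lc none D.M) * CM) * r ^ 2 := by
    have h9 : v (lc none D.M) * ((Ca i + v (lc none (D.a (some i))) / v (lc none D.M) * CM) * r ^ 2) =
        v (lc none D.M) * (Ca i * r ^ 2) + v (lc none (D.a (some i))) * (CM * r ^ 2) := by
      field_simp
    exact le_of_mul_le_mul_left (by rw [h9]; exact h7) hμ0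
  refine h8.trans (mul_le_mul_of_nonneg_right ?_ (by positivity))
  have := Finset.single_le_sum (f := fun i => Ca i + v (lc none (D.a (some i))) /
    v (lc none D.M) * CM) (fun i _ => hterm i) (Finset.mem_univ i)
  linarith

/-- the coordinates of the image -/
theorem img_bound (hG : Good F Q D) :
    ∃ C : ℝ, 0 < C ∧ ∀ r : ℝ, 0 ≤ r → r ≤ 1 → ∀ x : Option (Fin w) → K, (∀ j, v (x j) ≤ r) →
      ∀ j, v (eval x (D.a j)) ≤ C * r := by
  choose Ca hCa hba using fun j : Option (Fin w) => bound1 v (D.a j)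
  refine ⟨∑ j, Ca j + 1, ?_, fun r hr0 hr1 x hx j => ?_⟩
  · have : 0 ≤ ∑ j, Ca j := Finset.sum_nonneg fun j _ => (hCa j).le
    linarith
  have h1 := hba j r hr0 hr1 x hx
  rw [hG.a0, sub_zero] at h1
  have := Finset.single_le_sum (f := Ca) (fun i _ => (hCa i).le) (Finset.mem_univ j)
  exact h1.trans (mul_le_mul_of_nonneg_right (by linarith) hr0)

/-- nonvanishing near the origin -/
theorem nz (H : Pl K w) (h : constantCoeff H ≠ 0) :
    ∃ ρ : ℝ, 0 < ρ ∧ ∀ x : Option (Fin w) → K, (∀ j, v (x j) ≤ ρ) → eval x H ≠ 0 := by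
  obtain ⟨C, hC, hb⟩ := bound1 v H
  have h0 : 0 < v (constantCoeff H) := v.pos h
  refine ⟨min 1 (v (constantCoeff H) / (2 * C)), lt_min one_pos (by positivity), ?_⟩
  intro x hx h1
  have h2 := hb _ (lt_min one_pos (by positivity : 0 < v (constantCoeff H) / (2 * C))).le
    (min_le_left _ _) x hx
  rw [h1, zero_sub, map_neg_eq_map] at h2
  have h3 : C * min 1 (v (constantCoeff H) / (2 * C)) ≤ C * (v (constantCoeff H) / (2 * C)) :=
    mul_le_mul_of_nonneg_left (min_le_right _ _) hC.le
  have h4 : C * (v (constantCoeff H) / (2 * C)) = v (constantCoeff H) / 2 := by field_simp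
  linarith

theorem b_one (hv : IsNonarchimedean v) (H : Pl K w) (h : constantCoeff H = 1) :
    ∃ ρ : ℝ, 0 < ρ ∧ ∀ x : Option (Fin w) → K, (∀ j, v (x j) ≤ ρ) → v (eval x H) = 1 := by
  obtain ⟨C, hC, hb⟩ := bound1 v H
  refine ⟨min 1 (1 / (2 * C)), lt_min one_pos (by positivity), ?_⟩
  intro x hx
  have h2 := hb _ (lt_min one_pos (by positivity : 0 < 1 / (2 * C))).le (min_le_left _ _) x hx
  rw [h] at h2
  have h3 : C * min 1 (1 / (2 * C)) ≤ C * (1 / (2 * C)) :=
    mul_le_mul_of_nonneg_left (min_le_right _ _) hC.le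
  have h4 : C * (1 / (2 * C)) = 1 / 2 := by field_simp
  exact na_one v hv (by linarith)

/-- a point of the variety near the origin -/
structure Inv (v : AbsoluteValue K ℝ) (D : Dyn K w n) (C₁ s : ℝ) (x : Option (Fin w) → K) :
    Prop where
  M : eval x D.M = 0
  th : v (x none) ≤ C₁ * s
  le : ∀ i, v (x (some i)) ≤ s
  eq : ∃ i, v (x (some i)) = s

open Filter Topology in
theorem ev_small (A ρ : ℝ) (hρ : 0 < ρ) : ∀ᶠ s in 𝓝[>] (0 : ℝ), A * s < ρ := by
  have h1 : Tendsto (fun s : ℝ => A * s) (𝓝 0) (𝓝 (A * 0)) :=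
    (continuous_const.mul continuous_id).tendsto 0
  rw [mul_zero] at h1
  exact (h1.eventually (gt_mem_nhds hρ)).filter_mono nhdsWithin_le_nhds

open Filter Topology in
theorem main_step [CharZero K] (hv : IsNonarchimedean v) (h2 : v 2 < 1) (hG : Good F Q D) :
    ∃ C₁ : ℝ, 1 ≤ C₁ ∧ (∀ᶠ s in 𝓝[>] (0 : ℝ), ∀ x, Inv v D C₁ s x →
      Inv v D C₁ (v 2 * s) (stp D x) ∧ eval x D.b ≠ 0 ∧ eval x (D.c D.l0) ≠ 0 ∧
        eval x (aeval D.c Q) ≠ 0) ∧
      ∃ ρ : ℝ, 0 < ρ ∧ ∀ x : Option (Fin w) → K, (∀ j, v (x j) ≤ ρ) →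
      eval x D.M = 0 → ∀ r : ℝ, 0 ≤ r → (∀ i, v (x (some i)) ≤ r) → v (x none) ≤ C₁ * r := by
  have hv20 : 0 < v 2 := v.pos two_ne_zero
  obtain ⟨C₁, ρ₁, hC₁, hρ₁, hρ₁1, hθ⟩ := theta_bound v D.M hG.M0 hG.M1.ne_zero
  obtain ⟨Cl, hCl, hl⟩ := lin_bound v hG
  obtain ⟨Ca, hCa, ha⟩ := img_bound v hG
  obtain ⟨Cb, hCb, hb⟩ := bound1 v D.b
  obtain ⟨ρb, hρb, hb1⟩ := b_one v hv D.b hG.b0
  obtain ⟨ρc, hρc, hc⟩ := nz v (D.c D.l0) hG.c0.ne_zero
  obtain ⟨ρq, hρq, hq⟩ := nz v (aeval D.c Q) hG.q0.ne_zero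
  refine ⟨C₁, hC₁, ?_, ρ₁, hρ₁, hθ⟩
  filter_upwards [self_mem_nhdsWithin, ev_small C₁ ρ₁ hρ₁, ev_small C₁ ρb hρb,
    ev_small C₁ ρc hρc, ev_small C₁ ρq hρq, ev_small (Ca * C₁) ρ₁ hρ₁,
    ev_small ((Cl + Cb) * C₁ ^ 2) (v 2) hv20] with s hs e1 e2 e3 e4 e5 e6 x hx
  have hs0 : 0 < s := hs
  have hR0 : 0 < C₁ * s := by positivity
  have hR1 : C₁ * s ≤ 1 := e1.le.trans hρ₁1
  have hsR : s ≤ C₁ * s := by nlinarith
  have hxR : ∀ j, v (x j) ≤ C₁ * s := fun j => by
    cases j with
    | none => exact hx.th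
    | some i => exact (hx.le i).trans hsR
  have hbx : v (eval x D.b) = 1 := hb1 x fun j => (hxR j).trans e2.le
  have hb0 : eval x D.b ≠ 0 := by
    intro h0
    rw [h0, map_zero] at hbx
    exact zero_ne_one hbx
  -- the new coordinates
  have hdiff : ∀ i, v (stp D x (some i) - 2 * x (some i)) < v 2 * s := by
    intro i
    have h1 := hl _ hR0.le hR1 x hxR hx.M i
    have h3 := hb _ hR0.le hR1 x hxR
    rw [hG.b0] at h3
    have h4 : stp D x (some i) - 2 * x (some i) =
        ((eval x (D.a (some i)) - 2 * x (some i)) + -(2 * x (some i) * (eval x D.b - 1))) /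
          eval x D.b := by
      unfold stp
      field_simp
      ring
    rw [h4, map_div₀, hbx, div_one]
    refine (v.add_le _ _).trans_lt ?_
    rw [map_neg_eq_map, map_mul, map_mul]
    have h5 : v 2 * v (x (some i)) * v (eval x D.b - 1) ≤ 1 * (C₁ * s) * (Cb * (C₁ * s)) := by
      refine mul_le_mul (mul_le_mul h2.le (hxR _) (v.nonneg _) zero_le_one) h3 (v.nonneg _)
        (by positivity)
    have h6 : Cl * (C₁ * s) ^ 2 + 1 * (C₁ * s) * (Cb * (C₁ * s)) =
        ((Cl + Cb) * C₁ ^ 2 * s) * s := by ring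
    have h7 : ((Cl + Cb) * C₁ ^ 2 * s) * s < v 2 * s := mul_lt_mul_of_pos_right e6 hs0
    linarith
  have hle : ∀ i, v (stp D x (some i)) ≤ v 2 * s := by
    intro i
    have h1 := hv (2 * x (some i)) (stp D x (some i) - 2 * x (some i))
    rw [add_sub_cancel] at h1
    refine h1.trans (max_le ?_ (hdiff i).le)
    rw [map_mul]
    exact mul_le_mul_of_nonneg_left (hx.le i) (v.nonneg _)
  have heq : ∃ i, v (stp D x (some i)) = v 2 * s := by
    obtain ⟨i, hi⟩ := hx.eq
    refine ⟨i, ?_⟩
    have h1 : v (2 * x (some i) + (stp D x (some i) - 2 * x (some i))) = v (2 * x (some i)) :=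
      na_lt v hv (by rw [map_mul, hi]; exact hdiff i)
    rw [add_sub_cancel, map_mul, hi] at h1
    exact h1
  have hM : eval (stp D x) D.M = 0 := by
    obtain ⟨e, he, q, hq'⟩ := hG.inv
    have h1 := eval_hom e D.a D.b D.M he x hb0
    rw [hq', map_mul, hx.M, zero_mul] at h1
    rcases mul_eq_zero.1 h1.symm with h3 | h3
    · exact absurd h3 (pow_ne_zero _ hb0)
    · exact h3
  have hsm : ∀ j, v (stp D x j) ≤ ρ₁ := by
    intro j
    have h1 := ha _ hR0.le hR1 x hxR j
    have h3 : v (stp D x j) = v (eval x (D.a j)) := by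
      unfold stp
      rw [map_div₀, hbx, div_one]
    rw [h3]
    calc v (eval x (D.a j)) ≤ Ca * (C₁ * s) := h1
      _ = Ca * C₁ * s := by ring
      _ ≤ ρ₁ := e5.le
  refine ⟨⟨hM, hθ _ hsm hM _ (by positivity) hle, hle, heq⟩, hb0,
    hc x fun j => (hxR j).trans e3.le, hq x fun j => (hxR j).trans e4.le⟩

open Filter Topology in
theorem main_start [IsAlgClosed K] (hv : IsNonarchimedean v) (hG : Good F Q D) {C₁ ρ : ℝ}
    (hρ : 0 < ρ) (hC : ∀ x : Option (Fin w) → K, (∀ j, v (x j) ≤ ρ) →
      eval x D.M = 0 → ∀ r : ℝ, 0 ≤ r → (∀ i, v (x (some i)) ≤ r) → v (x none) ≤ C₁ * r) :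
    ∀ᶠ s in 𝓝[>] (0 : ℝ), ∀ u : Fin w → K, (∀ i, v (u i) ≤ s) → (∃ i, v (u i) = s) →
      ∃ θ, Inv v D C₁ s fun o => o.elim θ u := by
  obtain ⟨Cu, hCu, hu⟩ := uni_lin v D.M
  obtain ⟨Cm, hCm, hm⟩ := bound1 v D.M
  have hμ : 0 < v (lc none D.M) := v.pos hG.M1.ne_zero
  filter_upwards [self_mem_nhdsWithin, ev_small 1 1 one_pos, ev_small 1 ρ hρ,
    ev_small Cu (v (lc none D.M)) hμ, ev_small (Cm / v (lc none D.M)) ρ hρ]
    with s hs e1 e2 e3 e4 u hus hue
  have hs0 : 0 < s := hs
  rw [one_mul] at e1 e2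
  have h1 := hu s hs0.le e1.le u hus
  have h2 : v ((uni D.M u).coeff 1) = v (lc none D.M) := by
    have h3 : v (lc none D.M + ((uni D.M u).coeff 1 - lc none D.M)) = v (lc none D.M) :=
      na_lt v hv (h1.trans_lt e3)
    rwa [add_sub_cancel] at h3
  obtain ⟨θ, hθ, hb⟩ := small_root v hv _ (uni D.M u) rfl (by
    intro h0
    rw [h0, map_zero] at h2
    exact hμ.ne h2)
  rw [uni_eval] at hθ
  have h3 : v ((uni D.M u).coeff 0) ≤ Cm * s := by
    rw [Polynomial.coeff_zero_eq_eval_zero, uni_eval]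
    have := hm s hs0.le e1.le (fun o => o.elim 0 u) (fun j => by
      cases j with
      | none => simp only [Option.elim, map_zero]; exact hs0.le
      | some i => exact hus i)
    rwa [hG.M0, sub_zero] at this
  have h4 : v θ ≤ Cm / v (lc none D.M) * s := by
    rw [h2] at hb
    rw [div_mul_eq_mul_div, le_div_iff₀ hμ]
    exact hb.trans h3
  refine ⟨θ, hθ, ?_, hus, hue⟩
  refine hC (fun o => o.elim θ u) (fun j => ?_) hθ s hs0.le hus
  cases j with
  | none => exact h4.trans e4.le
  | some i => exact (hus i).trans e2.le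

end step

open Filter Topology in
theorem t_ADI : S_ADI := by
  intro K _ _ _ v hv h2 w n hw ι F Q D hG
  have hv20 : 0 < v 2 := v.pos two_ne_zero
  obtain ⟨C₁, hC₁, hstep, ρ, hρ, hC⟩ := main_step v hv h2 hG
  have hstart := main_start v hv hG hρ hC
  obtain ⟨δ, hδ, hall⟩ := (mem_nhdsGT_iff_exists_Ioc_subset (a := (0 : ℝ))).1
    (inter_mem hstep hstart)
  obtain ⟨N, hN⟩ := exists_pow_lt_of_lt_one hδ h2
  have hmem : ∀ k, v 2 ^ (N + k) ∈ Set.Ioc (0 : ℝ) δ := by
    intro k
    refine ⟨by positivity, ?_⟩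
    calc v 2 ^ (N + k) ≤ v 2 ^ N := pow_le_pow_of_le_one hv20.le h2.le (by omega)
      _ ≤ δ := hN.le
  obtain ⟨i0⟩ : Nonempty (Fin w) := ⟨⟨0, hw⟩⟩
  obtain ⟨θ, hθ⟩ := (hall (hmem 0)).2 (fun i => if i = i0 then 2 ^ N else 0) (fun i => by
    rw [add_zero]
    split_ifs
    · rw [map_pow]
    · rw [map_zero]; positivity) ⟨i0, by rw [if_pos rfl, map_pow, add_zero]⟩
  set x₀ : Option (Fin w) → K := fun o => o.elim θ fun i => if i = i0 then 2 ^ N else 0 with hx₀
  have hInv : ∀ k, Inv v D C₁ (v 2 ^ (N + k)) ((stp D)^[k] x₀) := by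
    intro k
    induction k with
    | zero => exact hθ
    | succ k ih =>
      have h3 := ((hall (hmem k)).1 _ ih).1
      rw [Function.iterate_succ_apply', show v 2 ^ (N + (k + 1)) = v 2 * v 2 ^ (N + k) by ring]
      exact h3
  refine ⟨fun k => (stp D)^[k] x₀, fun k => (hInv k).M, fun k => ((hall (hmem k)).1 _ (hInv k)).2.1,
    fun k j => ?_, fun k => ((hall (hmem k)).1 _ (hInv k)).2.2.1,
    fun k => ((hall (hmem k)).1 _ (hInv k)).2.2.2, fun i => ⟨N, ?_⟩, ?_⟩
  · change (stp D)^[k + 1] x₀ j = _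
    rw [Function.iterate_succ_apply']
    rfl
  · change (if i = i0 then (2 : K) ^ N else 0) = 2 ^ N ∨ (if i = i0 then (2 : K) ^ N else 0) = 0
    split_ifs
    · exact Or.inl rfl
    · exact Or.inr rfl
  · intro k m hkm
    have hle : ∀ k m : ℕ, (fun i => (stp D)^[k] x₀ (some i)) = (fun i => (stp D)^[m] x₀ (some i)) →
        v 2 ^ (N + k) ≤ v 2 ^ (N + m) := by
      intro k m hkm
      obtain ⟨i, hi⟩ := (hInv k).eq
      rw [← hi]
      have : (stp D)^[k] x₀ (some i) = (stp D)^[m] x₀ (some i) := congrFun hkm i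
      rw [this]
      exact (hInv m).le i
    have heq : v 2 ^ (N + k) = v 2 ^ (N + m) := le_antisymm (hle k m hkm) (hle m k hkm.symm)
    have := (pow_right_strictAnti₀ hv20 h2).injective heq
    omega

end Run7.h588.TA
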